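import Mathlib
import Pool.Agent.Y719.SU.Main

set_option autoImplicit false
set_option linter.unusedSectionVars false

/-! Lines in projective varieties over number fields. -/

namespace Pool.Agent.X332.LC

open MvPolynomial Pool.Agent.Y719.SU Pool.Agent.TH143.HE

variable {K : Type} [Field K] [NumberField K] {N : ℕ}

/-- Every line contained in `X_σ` is contained in `Z_σ`. -/
def LinesIn (σ : K →+* ℂ) (I I' : Ideal (MvPolynomial (Fin (N + 1)) K)) : Prop :=
  ∀ a b : Fin (N + 1) → ℂ, LinearIndependent ℂ ![a, b] →
    (∀ p q : ℂ, OnI σ I (p • a + q • b)) → ∀ p q : ℂ, p • a + q • b ≠ 0 →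
      OnI σ I' (p • a + q • b)

variable {σ : K →+* ℂ} {I I' : Ideal (MvPolynomial (Fin (N + 1)) K)}

/-- a line in `X_σ` gives a rational curve -/
theorem rcur_of_line {a b : Fin (N + 1) → ℂ} (hli : LinearIndependent ℂ ![a, b])
    (hX : ∀ p q : ℂ, OnI σ I (p • a + q • b)) (G : MvPolynomial (Fin (N + 1)) K) (hG : G ∈ I')
    (hGh : ∃ e, G.IsHomogeneous e) (hne : eval₂ σ a G ≠ 0) :
    RCur σ I I' fun j => Polynomial.C (a j) + Polynomial.C (b j) * Polynomial.X := by
  have hev : ∀ u : ℂ, (fun j => (Polynomial.C (a j) + Polynomial.C (b j) * Polynomial.X).eval u) =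
      (1 : ℂ) • a + u • b := by
    intro u
    funext j
    simp only [Polynomial.eval_add, Polynomial.eval_C, Polynomial.eval_mul, Polynomial.eval_X,
      Pi.add_apply, Pi.smul_apply, smul_eq_mul, one_mul]
    ring
  refine ⟨fun F hF hFh => ?_, ⟨G, hG, hGh, fun h0 => ?_⟩, ?_⟩
  · apply Polynomial.funext
    intro u
    rw [eval₂_eval, hev, Polynomial.eval_zero]
    exact hX 1 u F hF hFh
  · have h1 := eval₂_eval σ (fun j => Polynomial.C (a j) + Polynomial.C (b j) * Polynomial.X) G 0
    rw [h0, Polynomial.eval_zero, hev, one_smul, zero_smul, add_zero] at h1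
    exact hne h1.symm
  · by_contra hcon
    push Not at hcon
    rw [LinearIndependent.pair_iff] at hli
    have hc : ∀ j k, a j * b k = a k * b j := by
      intro j k
      have h1 := hcon j k 0 1
      simpa using h1
    have ha : ∃ j, a j ≠ 0 := by
      by_contra h
      push Not at h
      have h1 := hli 1 0 (by
        funext j
        simp [h j])
      exact one_ne_zero h1.1
    obtain ⟨j, hj⟩ := ha
    have h1 := hli (b j) (-a j) (by
      funext k
      simp only [Pi.add_apply, Pi.smul_apply, smul_eq_mul, Pi.zero_apply]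
      have := hc j k
      linear_combination -this)
    exact hj (neg_eq_zero.1 h1.2)

theorem linesIn_of_noRat (h : NoRat σ I I') : LinesIn σ I I' := by
  classical
  intro a b hli hX p q hpq G hG hGh
  by_contra hne
  -- an independent vector of the line
  have hli' := LinearIndependent.pair_iff.1 hli
  have hpq' : p ≠ 0 ∨ q ≠ 0 := by
    by_contra hcon
    push Not at hcon
    apply hpq
    rw [hcon.1, hcon.2, zero_smul, zero_smul, add_zero]
  obtain ⟨p', q', hdet⟩ : ∃ p' q' : ℂ, p * q' - q * p' ≠ 0 := by
    rcases hpq' with h1 | h1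
    · exact ⟨0, 1, by simpa using h1⟩
    · exact ⟨1, 0, by simpa using h1⟩
  have hli2 : LinearIndependent ℂ ![p • a + q • b, p' • a + q' • b] := by
    rw [LinearIndependent.pair_iff]
    intro s t hst
    have h1 : (s * p + t * p') • a + (s * q + t * q') • b = 0 := by
      rw [← hst]
      module
    obtain ⟨h2, h3⟩ := hli' _ _ h1
    constructor
    · have h4 : s * (p * q' - q * p') = 0 := by linear_combination q' * h2 - p' * h3
      exact (mul_eq_zero.1 h4).resolve_right hdet
    · have h4 : t * (p * q' - q * p') = 0 := by linear_combination p * h3 - q * h2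
      exact (mul_eq_zero.1 h4).resolve_right hdet
  refine h _ (rcur_of_line hli2 (fun s t => ?_) G hG hGh hne)
  have h1 : s • (p • a + q • b) + t • (p' • a + q' • b) =
      (s * p + t * p') • a + (s * q + t * q') • b := by module
  rw [h1]
  exact hX _ _

end Pool.Agent.X332.LC
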