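import Mathlib
import Pool.Agent.X332.LC.Line
import Pool.Agent.X332.FR.Main
import Pool.Agent.TH152.DS.CodeMain

set_option autoImplicit false
set_option linter.unusedSectionVars false

/-! Diagonal systems over number fields. -/

namespace Pool.Agent.X332.LC

open MvPolynomial Pool.Agent.Y719.SU Pool.Agent.TH143.HE Pool.Agent.TH152.DS

section code

variable {K : Type} [Field K] {N r : ℕ}

/-- The solutions over `K` of the linear equations `∑ j, c i j * t j = 0`. -/
def CodeK (c : Fin r → Fin (N + 1) → K) : Submodule K (Fin (N + 1) → K) where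
  carrier := {t | ∀ i, ∑ j, c i j * t j = 0}
  add_mem' {s t} hs ht i := by
    have h1 := hs i
    have h2 := ht i
    simp only [Pi.add_apply, mul_add, Finset.sum_add_distrib, h1, h2, add_zero]
  zero_mem' i := by simp
  smul_mem' a t ht i := by
    have h1 := ht i
    have h2 : ∀ j, c i j * (a • t) j = a * (c i j * t j) := fun j => by
      rw [Pi.smul_apply, smul_eq_mul]
      ring
    rw [Finset.sum_congr rfl fun j _ => h2 j, ← Finset.mul_sum, h1, mul_zero]

theorem mem_codeK {c : Fin r → Fin (N + 1) → K} {t : Fin (N + 1) → K} :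
    t ∈ CodeK c ↔ ∀ i, ∑ j, c i j * t j = 0 := Iff.rfl

/-- solutions over `ℂ` are combinations of solutions over `K` with the same zeros -/
theorem expand (σ : K →+* ℂ) (c : Fin r → Fin (N + 1) → K) {t : Fin (N + 1) → ℂ}
    (ht : t ∈ Code (fun i j => σ (c i j))) : ∃ (T : Finset ℂ) (s : ℂ → Fin (N + 1) → K),
      (∀ b, s b ∈ CodeK c) ∧ (∀ b j, t j = 0 → s b j = 0) ∧
      t = ∑ b ∈ T, b • fun j => σ (s b j) := by
  classical
  let _ : Algebra K ℂ := σ.toAlgebra
  let B := Module.Basis.ofVectorSpace K ℂ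
  -- the coordinates
  let co : (Module.Basis.ofVectorSpaceIndex K ℂ) → Fin (N + 1) → K := fun b j => B.repr (t j) b
  have hco : ∀ b, co b ∈ CodeK c := by
    intro b i
    have h1 : ∑ j, σ (c i j) * t j = 0 := ht i
    have h2 : ∑ j, c i j • t j = 0 := by
      rw [← h1]
      exact Finset.sum_congr rfl fun j _ => Algebra.smul_def _ _
    have h3 := congrArg (fun z => B.repr z b) h2
    simp only [map_sum, map_smul, Finsupp.coe_finsetSum, Finset.sum_apply, Finsupp.smul_apply,
      smul_eq_mul, map_zero, Finsupp.coe_zero, Pi.zero_apply] at h3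
    exact h3
  let s : ℂ → Fin (N + 1) → K := fun z =>
    if h : ∃ b, B b = z then co h.choose else 0
  have hsB : ∀ b, s (B b) = co b := by
    intro b
    have h : ∃ b', B b' = B b := ⟨b, rfl⟩
    show (if h : ∃ b', B b' = B b then co h.choose else 0) = co b
    rw [dif_pos h]
    congr 1
    exact B.injective h.choose_spec
  let S : Finset (Module.Basis.ofVectorSpaceIndex K ℂ) :=
    Finset.univ.biUnion fun j => (B.repr (t j)).support
  refine ⟨S.image B, s, fun z => ?_, fun z j hj => ?_, ?_⟩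
  · by_cases h : ∃ b, B b = z
    · obtain ⟨b, rfl⟩ := h
      rw [hsB]
      exact hco b
    · have : s z = 0 := dif_neg h
      rw [this]
      exact Submodule.zero_mem _
  · by_cases h : ∃ b, B b = z
    · obtain ⟨b, rfl⟩ := h
      rw [hsB]
      show B.repr (t j) b = 0
      rw [hj, map_zero]
      rfl
    · have : s z = 0 := dif_neg h
      rw [this]
      rfl
  · rw [Finset.sum_image (fun a _ b _ h => B.injective h)]
    funext j
    rw [Finset.sum_apply]
    have h1 : t j = ∑ b ∈ S, B.repr (t j) b • B b := by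
      conv_lhs => rw [← B.linearCombination_repr (t j)]
      rw [Finsupp.linearCombination_apply, Finsupp.sum]
      refine Finset.sum_subset (Finset.subset_biUnion_of_mem (fun j => (B.repr (t j)).support)
        (Finset.mem_univ j)) ?_
      intro b _ hb
      rw [Finsupp.notMem_support_iff.1 hb, zero_smul]
    rw [h1]
    refine Finset.sum_congr rfl fun b _ => ?_
    rw [Pi.smul_apply, hsB, smul_eq_mul, Algebra.smul_def, mul_comm]
    rfl

theorem finrank_code_le (σ : K →+* ℂ) (c : Fin r → Fin (N + 1) → K) :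
    Module.finrank ℂ (Code (fun i j => σ (c i j))) ≤ Module.finrank K (CodeK c) := by
  classical
  let b := Module.finBasis K (CodeK c)
  let v : Fin (Module.finrank K (CodeK c)) → Fin (N + 1) → ℂ :=
    fun i j => σ ((b i : Fin (N + 1) → K) j)
  have hle : Code (fun i j => σ (c i j)) ≤ Submodule.span ℂ (Set.range v) := by
    intro t ht
    obtain ⟨T, s, hs, -, hT⟩ := expand σ c ht
    rw [hT]
    refine Submodule.sum_mem _ fun z _ => Submodule.smul_mem _ _ ?_
    have h1 : (fun j => σ (s z j)) = ∑ i, σ (b.repr ⟨s z, hs z⟩ i) • v i := by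
      have h2 : s z = ∑ i, (b.repr ⟨s z, hs z⟩ i) • (b i : Fin (N + 1) → K) := by
        have h3 := congrArg (fun x : CodeK c => (x : Fin (N + 1) → K))
          (b.sum_repr ⟨s z, hs z⟩)
        simp only [Submodule.coe_sum, Submodule.coe_smul] at h3
        exact h3.symm
      funext j
      have h3 := congrFun h2 j
      rw [h3]
      simp only [Finset.sum_apply, Pi.smul_apply, smul_eq_mul, map_sum, map_mul]
      rfl
    rw [h1]
    exact Submodule.sum_mem _ fun i _ =>
      Submodule.smul_mem _ _ (Submodule.subset_span ⟨i, rfl⟩)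
  refine (Submodule.finrank_mono hle).trans ?_
  refine (finrank_range_le_card v).trans ?_
  rw [Fintype.card_fin]

/-- the code over `K` splits -/
def SplitsK (c : Fin r → Fin (N + 1) → K) (κ : Finset (Fin (N + 1))) : Prop :=
  (∃ t ∈ CodeK c, t ≠ 0 ∧ ∀ j ∉ κ, t j = 0) ∧ ∃ t ∈ CodeK c, t ≠ 0 ∧ ∀ j ∈ κ, t j = 0

theorem splits_iff (σ : K →+* ℂ) (c : Fin r → Fin (N + 1) → K) (κ : Finset (Fin (N + 1))) :
    Splits (fun i j => σ (c i j)) κ ↔ SplitsK c κ := by
  classical
  have key : ∀ S : Set (Fin (N + 1)),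
      (∃ t ∈ Code (fun i j => σ (c i j)), t ≠ 0 ∧ ∀ j ∈ S, t j = 0) ↔
      ∃ t ∈ CodeK c, t ≠ 0 ∧ ∀ j ∈ S, t j = 0 := by
    intro S
    constructor
    · rintro ⟨t, ht, ht0, htS⟩
      obtain ⟨T, s, hs, hz, hT⟩ := expand σ c ht
      obtain ⟨b, hb⟩ : ∃ b, s b ≠ 0 := by
        by_contra hcon
        push Not at hcon
        apply ht0
        rw [hT]
        refine Finset.sum_eq_zero fun b _ => ?_
        funext j
        rw [Pi.smul_apply, hcon b]
        simp
      exact ⟨s b, hs b, hb, fun j hj => hz b j (htS j hj)⟩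
    · rintro ⟨t, ht, ht0, htS⟩
      refine ⟨fun j => σ (t j), fun i => ?_, fun h => ht0 ?_, fun j hj => ?_⟩
      · have h1 := congrArg σ (ht i)
        simpa only [map_sum, map_mul, map_zero] using h1
      · funext j
        exact (map_eq_zero σ).1 (congrFun h j)
      · show σ (t j) = 0
        rw [htS j hj, map_zero]
  unfold Splits SplitsK
  have h1 := key {j | j ∉ κ}
  have h2 := key {j | j ∈ κ}
  exact and_congr h1 h2

end code

section ideal

variable {K : Type} [Field K] {N r : ℕ}

/-- the ideal of the forms `∑ j, c i j * x j ^ m` -/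
noncomputable def DiagI (m : ℕ) (c : Fin r → Fin (N + 1) → K) :
    Ideal (MvPolynomial (Fin (N + 1)) K) :=
  Ideal.span (Set.range fun i => ∑ j, C (c i j) * X j ^ m)

theorem onI_diag {A : Type} [CommRing A] (φ : K →+* A) (m : ℕ) (c : Fin r → Fin (N + 1) → K)
    (x : Fin (N + 1) → A) : OnI φ (DiagI m c) x ↔ ∀ i, ∑ j, φ (c i j) * x j ^ m = 0 := by
  have hval : ∀ i, eval₂ φ x (∑ j, C (c i j) * X j ^ m) = ∑ j, φ (c i j) * x j ^ m := by
    intro i
    rw [eval₂_sum]
    refine Finset.sum_congr rfl fun j _ => ?_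
    rw [eval₂_mul, eval₂_C, eval₂_pow, eval₂_X]
  constructor
  · intro h i
    rw [← hval]
    refine h _ (Ideal.subset_span ⟨i, rfl⟩) ⟨m, ?_⟩
    refine IsHomogeneous.sum _ _ _ fun j _ => ?_
    have h1 : (C (c i j) : MvPolynomial (Fin (N + 1)) K).IsHomogeneous 0 := isHomogeneous_C _ _
    have h2 : (X j ^ m : MvPolynomial (Fin (N + 1)) K).IsHomogeneous (1 * m) :=
      (isHomogeneous_X K j).pow m
    have h3 := h1.mul h2
    rwa [one_mul, zero_add] at h3
  · intro h G hG _
    have h1 : DiagI m c ≤ RingHom.ker (eval₂Hom φ x) := by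
      rw [DiagI, Ideal.span_le]
      rintro _ ⟨i, rfl⟩
      show eval₂ φ x (∑ j, C (c i j) * X j ^ m) = 0
      rw [hval]
      exact h i
    exact h1 hG

end ideal

variable {K : Type} [Field K] [NumberField K] {N r n m : ℕ}

theorem hyp_of_lines (c : Fin r → Fin (N + 1) → K) (hc : Module.finrank K (CodeK c) ≤ n + 1)
    (hm : n * (n + 1) * (n + 2) < 2 * m) (σ : K →+* ℂ)
    (I' : Ideal (MvPolynomial (Fin (N + 1)) K)) (h : LinesIn σ (DiagI m c) I') :
    Hyperbolic σ (DiagI m c) I' := by
  intro f hd hne hX hnc z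
  have hm0 : 0 < m := pos_of hm
  have hF : ∀ z i, ∑ j, σ (c i j) * f z j ^ m = 0 := fun z => (onI_diag σ m c (f z)).1 (hX z)
  obtain ⟨κ, hκ, hsum⟩ := curve_split (c := fun i j => σ (c i j))
    ((finrank_code_le σ c).trans hc) hm hd hne hF hnc
  have hcone : f z ∈ Pool.Agent.W602.GT.Cone (diag m fun i j => σ (c i j)) := by
    refine ⟨hne z, fun i => ?_⟩
    rw [val_diag']
    exact hF z i
  have hsp : f z ∈ SplitLocus m fun i j => σ (c i j) := ⟨hcone, κ, hκ, hsum z⟩
  obtain ⟨a, b, hab, p, q, hpq⟩ := split_line hm0 hsp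
  rw [hpq]
  refine h a b hab.1 (fun p q => ?_) p q (by rw [← hpq]; exact hne z)
  rw [onI_diag]
  intro i
  rw [← val_diag' (m := m) (c := fun i j => σ (c i j))]
  exact hab.2 p q i

theorem not_onI_top (σ : K →+* ℂ) (x : Fin (N + 1) → ℂ) :
    ¬ OnI σ (⊤ : Ideal (MvPolynomial (Fin (N + 1)) K)) x := by
  intro h
  have h1 := h 1 Submodule.mem_top ⟨0, isHomogeneous_one _ _⟩
  rw [eval₂_one] at h1
  exact one_ne_zero h1

theorem hyp_top_iff (c : Fin r → Fin (N + 1) → K) (hc : Module.finrank K (CodeK c) ≤ n + 1)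
    (hm : n * (n + 1) * (n + 2) < 2 * m) (σ : K →+* ℂ) :
    Hyperbolic σ (DiagI m c) ⊤ ↔ ¬ ∃ κ, SplitsK c κ := by
  have hm0 : 0 < m := pos_of hm
  constructor
  · rintro h ⟨κ, hκ⟩
    obtain ⟨a, b, hab⟩ := exists_line hm0 ((splits_iff σ c κ).2 hκ)
    have hl := linesIn_of_noRat (noRat_of_hyp σ h)
    have h1 : LinearIndependent ℂ ![a, b] := hab.1
    have ha : (1 : ℂ) • a + (0 : ℂ) • b ≠ 0 := by
      intro h0
      rw [LinearIndependent.pair_iff] at h1
      exact one_ne_zero (h1 1 0 h0).1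
    refine not_onI_top σ _ (hl a b h1 (fun p q => ?_) 1 0 ha)
    rw [onI_diag]
    intro i
    rw [← val_diag' (m := m) (c := fun i j => σ (c i j))]
    exact hab.2 p q i
  · intro h f hd hne hX hnc
    exfalso
    obtain ⟨κ, hκ, -⟩ := curve_split (c := fun i j => σ (c i j))
      ((finrank_code_le σ c).trans hc) hm hd hne (fun z => (onI_diag σ m c (f z)).1 (hX z)) hnc
    exact h ⟨κ, (splits_iff σ c κ).1 hκ⟩

end Pool.Agent.X332.LC
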