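import Mathlib
import Pool.Agent.X332.LC.Diag
import Pool.Agent.Y190.AN.Pic
import Pool.Agent.H159R3.War.Closed

set_option autoImplicit false
set_option linter.unusedSectionVars false

/-! Subvarieties of the varieties of powers of values of polynomials, over number fields. -/

namespace Pool.Agent.X332.LC

open MvPolynomial Pool.Agent.Y719.SU Pool.Agent.TH143.HE

variable {K : Type} [Field K] [NumberField K] {N : ℕ}

/-- the forms in `I`, over the complex numbers -/
noncomputable def formsC (σ : K →+* ℂ) (I : Ideal (MvPolynomial (Fin (N + 1)) K)) :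
    {G : MvPolynomial (Fin (N + 1)) K // G ∈ I ∧ ∃ e, G.IsHomogeneous e} →
      MvPolynomial (Fin (N + 1)) ℂ := fun G => map σ G.1

theorem eval_formsC (σ : K →+* ℂ) (G : MvPolynomial (Fin (N + 1)) K) (x : Fin (N + 1) → ℂ) :
    eval x (map σ G) = eval₂ σ x G := eval_map σ x G

theorem mem_cone (σ : K →+* ℂ) (I : Ideal (MvPolynomial (Fin (N + 1)) K)) {x : Fin (N + 1) → ℂ}
    (hx : x ≠ 0) : x ∈ Pool.Agent.W602.GT.Cone (formsC σ I) ↔ OnI σ I x := by
  constructor
  · rintro ⟨-, h⟩ G hG hGh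
    have h1 := h ⟨G, hG, hGh⟩
    rw [Pool.Agent.Y190.AN.val_eq] at h1
    rw [← eval_formsC]
    exact h1
  · intro h
    refine ⟨hx, fun G => ?_⟩
    rw [Pool.Agent.Y190.AN.val_eq]
    show eval x (map σ G.1) = 0
    rw [eval_formsC]
    exact h G.1 G.2.1 G.2.2

theorem form_formsC (σ : K →+* ℂ) (I : Ideal (MvPolynomial (Fin (N + 1)) K)) (G) :
    Pool.Agent.W602.GT.IsForm (formsC σ I G) := by
  obtain ⟨e, he⟩ := G.2.2
  exact ⟨e, he.map σ⟩

/-- If the entire curves in `X_σ` lie in the closure of the lines, then they lie in `Z_σ` if the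
lines do. -/
theorem hyp_of_spLine (σ : K →+* ℂ) (I I' : Ideal (MvPolynomial (Fin (N + 1)) K))
    (hsp : Pool.Agent.H159R3.GGLLog.SpH ∅ (formsC σ I) ⊆
      Pool.Agent.W602.GT.SpLine (formsC σ I)) (h : LinesIn σ I I') : Hyperbolic σ I I' := by
  intro f hd hne hX hnc z G hG hGh
  have hpts : ∀ z, f z ∈ Pool.Agent.H159R3.GGLLog.Pts ∅ (formsC σ I) := by
    intro z
    rw [Pool.Agent.Y190.AN.pts_eq, mem_cone σ I (hne z)]
    exact hX z
  have hf : Pool.Agent.H159R3.GGLLog.EntireCurve ∅ (formsC σ I) f := ⟨hd, hpts, hnc⟩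
  have h1 : f z ∈ Pool.Agent.H159R3.GGLLog.SpH ∅ (formsC σ I) :=
    ⟨hpts z, fun G _ hE => hE f hf z⟩
  have h2 := (hsp h1).2 (map σ G) (by
    obtain ⟨e, he⟩ := hGh
    exact ⟨e, he.map σ⟩) ?_
  · rw [Pool.Agent.Y190.AN.val_eq, eval_formsC] at h2
    exact h2
  · -- `G` vanishes on the lines
    intro a b hab
    have hX' : ∀ p q : ℂ, p • a + q • b ≠ 0 → OnI σ I (p • a + q • b) := fun p q h0 =>
      (mem_cone σ I h0).1 ⟨h0, fun i => hab.2 p q i⟩
    have ha0 : a ≠ 0 := by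
      intro h0
      have := LinearIndependent.pair_iff.1 hab.1 1 0 (by rw [h0, smul_zero, zero_smul, add_zero])
      exact one_ne_zero this.1
    have hX'' : ∀ p q : ℂ, OnI σ I (p • a + q • b) := by
      intro p q F hF hFh
      rw [← eval_formsC, ← Pool.Agent.Y190.AN.val_eq]
      exact hab.2 p q ⟨F, hF, hFh⟩
    have hG' : ∀ p q : ℂ, p • a + q • b ≠ 0 → eval₂ σ (p • a + q • b) G = 0 :=
      fun p q h0 => h a b hab.1 hX'' p q h0 G hG hGh
    intro p q
    rw [Pool.Agent.Y190.AN.val_eq, eval_formsC]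
    by_cases h0 : p • a + q • b = 0
    · obtain ⟨e, he⟩ := hGh
      rw [h0]
      have h3 := hG' 1 0 (by rw [one_smul, zero_smul, add_zero]; exact ha0)
      rw [one_smul, zero_smul, add_zero] at h3
      rw [← eval_formsC] at h3 ⊢
      have h5 := Pool.Agent.H159R3.War.eval_smul_hom (he.map σ) 0 a
      rw [zero_smul, h3, mul_zero] at h5
      exact h5
    · exact hG' p q h0

/-- `X` is contained in the variety of the `x` such that `x_i ^ m = H (a_i)` for some polynomial `H`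
of degree at most `n`: the ideal contains the corresponding relations. -/
def InPowers (n m : ℕ) (a : Fin (N + 1) → K) (I : Ideal (MvPolynomial (Fin (N + 1)) K)) : Prop :=
  ∀ l : Fin (N + 1) → K, (∀ j ≤ n, ∑ i, l i * a i ^ j = 0) → ∑ i, C (l i) * X i ^ m ∈ I

theorem cone_sub {n m : ℕ} (σ : K →+* ℂ) {a : Fin (N + 1) → K}
    {I : Ideal (MvPolynomial (Fin (N + 1)) K)} (hI : InPowers n m a I) :
    Pool.Agent.W602.GT.Cone (formsC σ I) ⊆
      Pool.Agent.W602.GT.Cone (Pool.Agent.Y190.BV.buchi (fun i => σ (a i)) n m) := by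
  rintro x hx
  have hx0 : x ≠ 0 := hx.1
  have hX := (mem_cone σ I hx0).1 hx
  refine ⟨hx0, ?_⟩
  rintro ⟨l, hl⟩
  have hl' : l ∈ Pool.Agent.TH152.DS.Code (fun (j : Fin (n + 1)) i => σ (a i ^ (j : ℕ))) := by
    intro j
    have h1 := hl j (by omega)
    rw [← h1]
    refine Finset.sum_congr rfl fun i _ => ?_
    show σ (a i ^ (j : ℕ)) * l i = l i * σ (a i) ^ (j : ℕ)
    rw [map_pow, mul_comm]
  obtain ⟨T, s, hs, -, hT⟩ := expand σ (fun (j : Fin (n + 1)) i => a i ^ (j : ℕ)) hl'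
  have hs' : ∀ b, ∑ i, σ (s b i) * x i ^ m = 0 := by
    intro b
    have h1 : ∑ i, C (s b i) * X i ^ m ∈ I := hI (s b) fun j hj => by
      have h2 := hs b ⟨j, by omega⟩
      rw [← h2]
      exact Finset.sum_congr rfl fun i _ => mul_comm _ _
    have h2 := hX _ h1 ⟨m, by
      refine IsHomogeneous.sum _ _ _ fun j _ => ?_
      have h1 : (C (s b j) : MvPolynomial (Fin (N + 1)) K).IsHomogeneous 0 := isHomogeneous_C _ _
      have h2 : (X j ^ m : MvPolynomial (Fin (N + 1)) K).IsHomogeneous (1 * m) :=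
        (isHomogeneous_X K j).pow m
      have h3 := h1.mul h2
      rwa [one_mul, zero_add] at h3⟩
    rw [eval₂_sum] at h2
    rw [← h2]
    refine Finset.sum_congr rfl fun i _ => ?_
    rw [eval₂_mul, eval₂_C, eval₂_pow, eval₂_X]
  rw [Pool.Agent.Y190.AN.val_eq]
  unfold Pool.Agent.Y190.BV.buchi
  rw [map_sum]
  have h3 : ∀ i, eval x (C (l i) * X i ^ m) = ∑ b ∈ T, b * (σ (s b i) * x i ^ m) := by
    intro i
    rw [map_mul, map_pow, eval_C, eval_X]
    have h4 := congrFun hT i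
    rw [h4, Finset.sum_apply, Finset.sum_mul]
    refine Finset.sum_congr rfl fun b _ => ?_
    rw [Pi.smul_apply, smul_eq_mul, mul_assoc]
  show ∑ i, eval x (C (l i) * X i ^ m) = 0
  rw [Finset.sum_congr rfl fun i _ => h3 i, Finset.sum_comm]
  refine Finset.sum_eq_zero fun b _ => ?_
  rw [← Finset.mul_sum, hs', mul_zero]

theorem hyp_of_lines_powers {n m : ℕ} (hm : 2 ≤ m) (hnm : n < 2 * m) (hN : 4 * n < N + 1)
    {a : Fin (N + 1) → K} (ha : Function.Injective a)
    {I : Ideal (MvPolynomial (Fin (N + 1)) K)} (hI : InPowers n m a I) (σ : K →+* ℂ)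
    (I' : Ideal (MvPolynomial (Fin (N + 1)) K)) (h : LinesIn σ I I') : Hyperbolic σ I I' := by
  have ha' : Function.Injective fun i => σ (a i) := σ.injective.comp ha
  refine hyp_of_spLine σ I I' ?_ h
  exact (Pool.Agent.Y190.AN.spH_sub ∅ _).trans
    (Pool.Agent.Y190.AN.spP_sub hm hnm hN ha' (form_formsC σ I) (cone_sub σ hI))

end Pool.Agent.X332.LC
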