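import Mathlib
import Pool.Agent.X332.LC.Buchi
import Pool.Agent.Y190.CI.Tf

set_option autoImplicit false
set_option linter.unusedSectionVars false

/-! Subvarieties of complete intersections of linear degree, over number fields. -/

namespace Pool.Agent.X332.LC

open MvPolynomial Pool.Agent.Y719.SU Pool.Agent.TH143.HE
open Pool.Agent.W602.GT (Cone Line IsForm GmCurve)
open Pool.Agent.Y190.PH (Brody)
open Pool.Agent.Y190.CI (CompInt eqF)

variable {K : Type} [Field K] [NumberField K]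

theorem brody_iff {N : ℕ} (σ : K →+* ℂ) (I : Ideal (MvPolynomial (Fin (N + 1)) K)) :
    Hyperbolic σ I ⊤ ↔ Brody (formsC σ I) := by
  have hX : ∀ x : Fin (N + 1) → ℂ, OnI σ I x ↔ ∀ i, eval x (formsC σ I i) = 0 := by
    intro x
    constructor
    · intro h i
      show eval x (map σ i.1) = 0
      rw [eval_formsC]
      exact h i.1 i.2.1 i.2.2
    · intro h G hG hGh
      rw [← eval_formsC]
      exact h ⟨G, hG, hGh⟩
  constructor
  · intro h f hd hne hf
    by_contra hcon
    push Not at hcon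
    obtain ⟨z, w, hzw⟩ := hcon
    exact not_onI_top σ _ (h f hd hne (fun z => (hX _).2 (hf z)) ⟨z, w, hzw⟩ z)
  · intro h f hd hne hf ⟨z, w, hzw⟩
    obtain ⟨c, hc⟩ := h f hd hne (fun z => (hX _).1 (hf z)) z w
    exact absurd hc (hzw c)

theorem noLine_of_linesIn {N : ℕ} {σ : K →+* ℂ} {I : Ideal (MvPolynomial (Fin (N + 1)) K)}
    (h : LinesIn σ I ⊤) (a b : Fin (N + 1) → ℂ) : ¬ Line (formsC σ I) a b := by
  intro hab
  have ha0 : (1 : ℂ) • a + (0 : ℂ) • b ≠ 0 := by
    intro h0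
    exact one_ne_zero (LinearIndependent.pair_iff.1 hab.1 1 0 h0).1
  refine not_onI_top σ _ (h a b hab.1 (fun p q F hF hFh => ?_) 1 0 ha0)
  rw [← eval_formsC, ← Pool.Agent.Y190.AN.val_eq]
  exact hab.2 p q ⟨F, hF, hFh⟩

theorem noGm_of_noRat {N : ℕ} {σ : K →+* ℂ} {I : Ideal (MvPolynomial (Fin (N + 1)) K)}
    (h : NoRat σ I ⊤) (P : Fin (N + 1) → Polynomial ℂ) : ¬ GmCurve (formsC σ I) P := by
  intro hP
  refine h P ⟨fun G hG hGh => ?_, ⟨1, Submodule.mem_top, ⟨0, isHomogeneous_one _ _⟩, ?_⟩, ?_⟩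
  · have h1 : ∀ t : ℂ, t ≠ 0 → (eval₂ (Polynomial.C.comp σ) P G).eval t = 0 := by
      intro t ht
      rw [eval₂_eval, ← eval_formsC, ← Pool.Agent.Y190.AN.val_eq]
      exact hP.mem t ht ⟨G, hG, hGh⟩
    by_contra hne
    have h2 := Polynomial.finite_setOfPred_isRoot hne
    have h3 : ({0}ᶜ : Set ℂ) ⊆ {x | Polynomial.IsRoot (eval₂ (Polynomial.C.comp σ) P G) x} :=
      fun t ht => h1 t ht
    exact (((Set.finite_singleton (0 : ℂ)).infinite_compl).mono h3) h2
  · rw [eval₂_one]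
    exact one_ne_zero
  · obtain ⟨t, t', ht, ht', hli⟩ := hP.nonconst
    by_contra hcon
    push Not at hcon
    have hc : ∀ j k, (P j).eval t * (P k).eval t' = (P k).eval t * (P j).eval t' := by
      intro j k
      rw [Polynomial.eval_eq_sum_range' (n := (P j).natDegree + (P k).natDegree + 1) (by omega) t,
        Polynomial.eval_eq_sum_range' (p := P k) (n := (P j).natDegree + (P k).natDegree + 1)
          (by omega) t',
        Polynomial.eval_eq_sum_range' (p := P k) (n := (P j).natDegree + (P k).natDegree + 1)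
          (by omega) t,
        Polynomial.eval_eq_sum_range' (p := P j) (n := (P j).natDegree + (P k).natDegree + 1)
          (by omega) t', Finset.sum_mul_sum, Finset.sum_mul_sum]
      refine Finset.sum_congr rfl fun i _ => Finset.sum_congr rfl fun i' _ => ?_
      linear_combination (t ^ i * t' ^ i') * hcon j k i i'
    rw [LinearIndependent.pair_iff] at hli
    obtain ⟨j, hj⟩ : ∃ j, (P j).eval t ≠ 0 := by
      by_contra h0
      push Not at h0
      exact hP.ne t ht (funext h0)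
    have h1 := hli ((P j).eval t') (-(P j).eval t) (by
      funext k
      simp only [Pi.add_apply, Pi.smul_apply, smul_eq_mul, Pi.zero_apply]
      have := hc j k
      linear_combination -this)
    exact hj (neg_eq_zero.1 h1.2)

variable {n c δ : ℕ} {d : Fin c → ℕ} {a : (j : Fin c) → Fin (d j) → K}

/-- `X` is contained in the complete intersection of the hypersurfaces
`w_j ^ (d_j) = H (a_j1) ⋯ H (a_jd_j)`. -/
def InCI (n : ℕ) (a : (j : Fin c) → Fin (d j) → K)
    (I : Ideal (MvPolynomial (Fin (c + n + 1)) K)) : Prop :=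
  ∀ j, X (Fin.castAdd (n + 1) j) ^ d j -
    ∏ i, ∑ l : Fin (n + 1), X (Fin.natAdd c l) * C (a j i ^ (l : ℕ)) ∈ I

theorem cone_ci (σ : K →+* ℂ) {I : Ideal (MvPolynomial (Fin (c + n + 1)) K)} (hI : InCI n a I) :
    Cone (formsC σ I) ⊆ CompInt n (fun j i => σ (a j i)) := by
  intro x hx
  have hX := (mem_cone σ I hx.1).1 hx
  refine ⟨hx.1, fun j => ?_⟩
  have h1 := hX _ (hI j) (Pool.Agent.Y190.CI.isForm_eqF a j)
  rw [eval₂_sub, eval₂_pow, eval₂_X, eval₂_prod, sub_eq_zero] at h1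
  rw [h1]
  refine Finset.prod_congr rfl fun i _ => ?_
  rw [eval₂_sum]
  refine Finset.sum_congr rfl fun l _ => ?_
  rw [eval₂_mul, eval₂_X, eval₂_C, map_pow]

theorem hyp_of_lines_ci (h : Pool.Agent.Y190.CI.Data n c δ d a)
    {I : Ideal (MvPolynomial (Fin (c + n + 1)) K)} (hI : InCI n a I) (hnc : n ≤ c + 1)
    (σ : K →+* ℂ) (hl : LinesIn σ I ⊤) : Hyperbolic σ I ⊤ := by
  rw [brody_iff]
  exact ((Pool.Agent.Y190.CI.hyp_ci hnc h.num (σ.injective.comp h.inj) (form_formsC σ I)
    (cone_ci σ hI)).out 0 4).2 (noLine_of_linesIn hl)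

theorem hyp_ci_low (h : Pool.Agent.Y190.CI.Data n c δ d a)
    {I : Ideal (MvPolynomial (Fin (c + n + 1)) K)} (hI : InCI n a I) (hnc : n ≤ c)
    (σ : K →+* ℂ) : Hyperbolic σ I ⊤ := by
  rw [brody_iff]
  exact (Pool.Agent.Y190.CI.hyp_low hnc h.num (σ.injective.comp h.inj) (form_formsC σ I)
    (cone_ci σ hI)).1

theorem inj_ci (σ : K →+* ℂ) (ha : Function.Injective fun t : Σ j, Fin (d j) => a t.1 t.2) :
    Function.Injective fun t : Σ j, Fin (d j) => (fun j i => σ (a j i)) t.1 t.2 :=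
  σ.injective.comp ha

end Pool.Agent.X332.LC
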