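import Mathlib
import Pool.Agent.X332.LC.LinDeg
import Pool.Agent.Y221.FQ.Top

set_option autoImplicit false
set_option linter.unusedSectionVars false

/-! Images of finite morphisms from systems of high powers, over number fields. -/

namespace Pool.Agent.X332.LC

open MvPolynomial Pool.Agent.Y719.SU Pool.Agent.TH143.HE
open Pool.Agent.W602.GT (Cone IsForm GmCurve SpGm HighPowers SubVar GeneralType val)

open Pool.Agent.Y221.FQ

variable {K : Type} [Field K] [NumberField K] {M : ℕ}

/-- a morphism from the multiplicative group to `X_σ` has its image in `Z_σ` if all rational curves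
lie there -/
theorem gm_in_of_noRat {σ : K →+* ℂ} {I I' : Ideal (MvPolynomial (Fin (M + 1)) K)}
    (h : NoRat σ I I') {P : Fin (M + 1) → Polynomial ℂ} (hP : GmCurve (formsC σ I) P)
    {H : MvPolynomial (Fin (M + 1)) K} (hH : H ∈ I') (hHh : ∃ d, H.IsHomogeneous d) (t : ℂ) :
    val (fun i => (P i).eval t) (map σ H) = 0 := by
  have hval : val (fun i => (P i).eval t) (map σ H) =
      (eval₂ (Polynomial.C.comp σ) P H).eval t := by
    rw [eval₂_eval, Pool.Agent.Y190.AN.val_eq, eval_map]
  rw [hval]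
  by_contra hne
  refine h P ⟨fun G hG hGh => ?_, ⟨H, hH, hHh, ?_⟩, ?_⟩
  · have h1 : ∀ t : ℂ, t ≠ 0 → (eval₂ (Polynomial.C.comp σ) P G).eval t = 0 := by
      intro t ht
      rw [eval₂_eval, ← eval_formsC, ← Pool.Agent.Y190.AN.val_eq]
      exact hP.mem t ht ⟨G, hG, hGh⟩
    by_contra hne
    have h2 := Polynomial.finite_setOfPred_isRoot hne
    have h3 : ({0}ᶜ : Set ℂ) ⊆ {x | Polynomial.IsRoot (eval₂ (Polynomial.C.comp σ) P G) x} :=
      fun t ht => h1 t ht
    exact (((Set.finite_singleton (0 : ℂ)).infinite_compl).mono h3) h2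
  · intro h0
    rw [h0, Polynomial.eval_zero] at hne
    exact hne rfl
  · obtain ⟨t, t', ht, ht', hli⟩ := hP.nonconst
    by_contra hcon
    push Not at hcon
    have hc : ∀ j k, (P j).eval t * (P k).eval t' = (P k).eval t * (P j).eval t' := by
      intro j k
      rw [Polynomial.eval_eq_sum_range' (n := (P j).natDegree + (P k).natDegree + 1) (by omega) t,
        Polynomial.eval_eq_sum_range' (p := P k) (n := (P j).natDegree + (P k).natDegree + 1)
          (by omega) t',
        Polynomial.eval_eq_sum_range' (p := P k) (n := (P j).natDegree + (P k).natDegree + 1)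
          (by omega) t,
        Polynomial.eval_eq_sum_range' (p := P j) (n := (P j).natDegree + (P k).natDegree + 1)
          (by omega) t', Finset.sum_mul_sum, Finset.sum_mul_sum]
      refine Finset.sum_congr rfl fun i _ => Finset.sum_congr rfl fun i' _ => ?_
      linear_combination (t ^ i * t' ^ i') * hcon j k i i'
    rw [LinearIndependent.pair_iff] at hli
    obtain ⟨j, hj⟩ : ∃ j, (P j).eval t ≠ 0 := by
      by_contra h0
      push Not at h0
      exact hP.ne t ht (funext h0)
    have h1 := hli ((P j).eval t') (-(P j).eval t) (by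
      funext k
      simp only [Pi.add_apply, Pi.smul_apply, smul_eq_mul, Pi.zero_apply]
      have := hc j k
      linear_combination -this)
    exact hj (neg_eq_zero.1 h1.2)

/-- if the entire curves lie in the closure of the images of the multiplicative group, then they lie
in every `Z` which contains the rational curves -/
theorem hyp_of_spGm {σ : K →+* ℂ} {I I' : Ideal (MvPolynomial (Fin (M + 1)) K)}
    (hsp : SpH (formsC σ I) ⊆ SpGm (formsC σ I)) (h : NoRat σ I I') : Hyperbolic σ I I' := by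
  intro f hd hne hf hnc z H hH hHh
  have hmem : ∀ t, f t ∈ Cone (formsC σ I) := fun t => (mem_cone σ I (hne t)).2 (hf t)
  have hE : Entire (formsC σ I) f := by
    refine ⟨fun i => (differentiable_pi.1 hd i), hmem, ?_⟩
    obtain ⟨a, b, hab⟩ := hnc
    refine ⟨a, b, ?_⟩
    rw [LinearIndependent.pair_iff]
    intro s t hst
    by_cases hs : s = 0
    · subst hs
      rw [zero_smul, zero_add] at hst
      rcases smul_eq_zero.1 hst with h0 | h0
      · exact ⟨rfl, h0⟩
      · exact absurd h0 (hne b)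
    · exfalso
      refine hab (-(s⁻¹ * t)) ?_
      have h1 : f a = s⁻¹ • (s • f a) := by rw [smul_smul, inv_mul_cancel₀ hs, one_smul]
      rw [h1, eq_neg_of_add_eq_zero_left hst, smul_neg, smul_smul, neg_smul]
  have h1 : f z ∈ SpH (formsC σ I) := ⟨hmem z, fun G _ hG => hG f hE z⟩
  have h2 := (hsp h1).2 (map σ H) (by
    obtain ⟨d, hd⟩ := hHh
    exact ⟨d, hd.map σ⟩) fun P hP t _ => gm_in_of_noRat h hP hH hHh t
  rw [Pool.Agent.Y190.AN.val_eq, eval_map] at h2
  exact h2

variable {n m : ℕ} {ι κ : Type}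

/-- images of systems of high powers -/
theorem hyp_of_noRat_im {σ : K →+* ℂ} {I I' : Ideal (MvPolynomial (Fin (M + 1)) K)}
    {F : ι → MvPolynomial (Fin (n + 1)) ℂ} {G : Fin (M + 1) → MvPolynomial (Fin (n + 1)) ℂ}
    {r s N : ℕ} (hG : Mor F (formsC σ I) G) (hon : Onto F (formsC σ I) G) (hfib : FibresLe F G r)
    (hF : HighPowers s N F) (hn : 1 ≤ n) (hN : n * (4 * 10 ^ s * (r + 1) ^ 7) ≤ N)
    (h : NoRat σ I I') : Hyperbolic σ I I' := by
  obtain ⟨h1, -⟩ := special_im (form_formsC σ I) hG hon hfib hF hn hN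
  exact hyp_of_spGm h1.le h

/-- covers of systems of high powers and their images -/
theorem hyp_cover_im {σ : K →+* ℂ} {I I' : Ideal (MvPolynomial (Fin (M + 1)) K)} {μ : Type}
    {F : ι → MvPolynomial (Fin (n + 1)) ℂ} {Ψ : κ → MvPolynomial (Fin (m + 1)) ℂ}
    {Φ : μ → MvPolynomial (Fin (M + 1)) ℂ} {B : Fin (n + 1) → MvPolynomial (Fin (m + 1)) ℂ}
    {G : Fin (M + 1) → MvPolynomial (Fin (m + 1)) ℂ} {r s N : ℕ} (hΨ : ∀ e, IsForm (Ψ e))
    (hB : Mor Ψ F B) (hG : Mor Ψ Φ G) (hon : Onto Ψ Φ G) (hfib : FibresLe Ψ G r)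
    (hF : HighPowers s N F) (hn : 1 ≤ n) (hN : n * (4 * 10 ^ s * (r + 1) ^ 7) ≤ N)
    (hX : Cone (formsC σ I) ⊆ Cone Φ)
    (hZ : ∀ x ∈ Cone Ψ, im B x ∈ SpGm F → im G x ∈ Cone (formsC σ I) → OnI σ I' (im G x)) :
    Hyperbolic σ I I' := by
  intro f hd hne hf hnc z
  have hmem : ∀ t, f t ∈ Cone (formsC σ I) := fun t => (mem_cone σ I (hne t)).2 (hf t)
  have hE : Entire Φ f := by
    refine ⟨fun i => (differentiable_pi.1 hd i), fun t => hX (hmem t), ?_⟩
    obtain ⟨a, b, hab⟩ := hnc
    refine ⟨a, b, ?_⟩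
    rw [LinearIndependent.pair_iff]
    intro s t hst
    by_cases hs : s = 0
    · subst hs
      rw [zero_smul, zero_add] at hst
      rcases smul_eq_zero.1 hst with h0 | h0
      · exact ⟨rfl, h0⟩
      · exact absurd h0 (hne b)
    · exfalso
      refine hab (-(s⁻¹ * t)) ?_
      have h1 : f a = s⁻¹ • (s • f a) := by rw [smul_smul, inv_mul_cancel₀ hs, one_smul]
      rw [h1, eq_neg_of_add_eq_zero_left hst, smul_neg, smul_smul, neg_smul]
  have h1 : f z ∈ SpH Φ := ⟨hX (hmem z), fun G _ hG => hG f hE z⟩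
  obtain ⟨x, ⟨hx, hBx⟩, hxz⟩ := (special_cover hΨ hB hG hon hfib hF hn hN).1 h1
  rw [← hxz]
  refine hZ x hx hBx ?_
  rw [hxz]
  exact hmem z

end Pool.Agent.X332.LC
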